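import Pool.Agent.Lib.P83e.Extr

/-!
# Integers as a square plus a prime: mean value over thin sets, and extreme values in short intervals
-/

set_option autoImplicit false

namespace Pool.Agent.Results.MP_83819a_nt.ExtremeValues

/-- The number of representations of `n` as a square plus a prime: pairs `(m, p)`, `m ≥ 0`, `p` prime,
`n = m^2 + p`. -/
noncomputable def numRep (n : ℕ) : ℕ := {mp : ℕ × ℕ | mp.2.Prime ∧ n = mp.1 ^ 2 + mp.2}.ncard

/-- The integers `n` with `x < n ≤ x + y` and `(n / q) = e q` for every prime `q` dividing `Q`. -/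
noncomputable def patternSet (e : ℕ → ℤ) (Q x y : ℕ) : Finset ℕ :=
  open scoped Classical in
  (Finset.Ioc x (x + y)).filter (fun n => ∀ q : ℕ, q.Prime → q ∣ Q → jacobiSym (n : ℤ) q = e q)

/-- The primes `q` with `2 < q ≤ t`. -/
noncomputable def oddPrimes (t : ℝ) : Finset ℕ :=
  open scoped Classical in
  (Finset.range (⌊t⌋₊ + 1)).filter (fun q => q.Prime ∧ 2 < q)

theorem numRep_eq (n : ℕ) : numRep n = P83e.reps n := by
  classical
  unfold numRep P83e.reps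
  have h : {mp : ℕ × ℕ | mp.2.Prime ∧ n = mp.1 ^ 2 + mp.2} =
      ↑(((Finset.range (n + 1)).filter (fun m => (n - m ^ 2).Prime)).image (fun m => (m, n - m ^ 2))) := by
    ext ⟨m, p⟩
    simp only [Set.mem_setOf_eq, Finset.coe_image, Finset.coe_filter, Finset.mem_range, Set.mem_image,
      Prod.mk.injEq]
    constructor
    · rintro ⟨hp, hn⟩
      refine ⟨m, ⟨?_, ?_⟩, rfl, by omega⟩
      · have : m ≤ m ^ 2 := Nat.le_self_pow (by norm_num) m
        omega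
      · have : n - m ^ 2 = p := by omega
        rwa [this]
    · rintro ⟨m', ⟨_, h2⟩, h3, h4⟩
      subst h3
      have : 0 < n - m' ^ 2 := h2.pos
      exact ⟨h4 ▸ h2, by omega⟩
  rw [h, Set.ncard_coe_finset, Finset.card_image_of_injective]
  intro a b hab
  simpa using congrArg Prod.fst hab

theorem patternSet_eq (e : ℕ → ℤ) {Q : ℕ} (hQ : Q ≠ 0) (x y : ℕ) : patternSet e Q x y = P83e.SS e Q x y := by
  classical
  unfold patternSet P83e.SS P83e.Pat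
  ext n
  simp only [Finset.mem_filter, Nat.mem_primeFactors]
  constructor
  · rintro ⟨h1, h2⟩
    exact ⟨h1, fun q hq => h2 q hq.1 hq.2.1⟩
  · rintro ⟨h1, h2⟩
    exact ⟨h1, fun q hq hqQ => h2 q ⟨hq, hqQ, hQ⟩⟩

theorem result :
    (∀ ε δ : ℝ, 0 < ε → 0 < δ → ∃ c : ℝ, 0 < c ∧ ∃ x0 : ℕ, ∀ x : ℕ, x0 ≤ x → ∀ y : ℕ,
      (x : ℝ) ^ (1 / 2 + δ) ≤ y → ∀ (e : ℕ → ℤ) (Q : ℕ), Odd Q → Squarefree Q → (Q : ℝ) ≤ (x : ℝ) ^ c →
      (∀ q, e q = 1 ∨ e q = -1) →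
      |∑ n ∈ patternSet e Q x y, (numRep n : ℝ) -
        (∏ q ∈ Q.primeFactors, (1 - (e q : ℝ) / ((q : ℝ) - 1))) *
          ∑ n ∈ patternSet e Q x y, √(n : ℝ) / Real.log n| ≤
      ε * ((∏ q ∈ Q.primeFactors, (1 - (e q : ℝ) / ((q : ℝ) - 1))) *
          ∑ n ∈ patternSet e Q x y, √(n : ℝ) / Real.log n)) ∧
    (∀ ε δ : ℝ, 0 < ε → 0 < δ → ∃ x0 : ℕ, ∀ x : ℕ, x0 ≤ x → ∀ y : ℕ, (x : ℝ) ^ (1 / 2 + δ) ≤ y →
      (∃ n : ℕ, x < n ∧ n ≤ x + y ∧
        (1 - ε) * (√(n : ℝ) / Real.log n) * ∏ q ∈ oddPrimes (Real.log n), ((q : ℝ) / ((q : ℝ) - 1)) ≤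
          (numRep n : ℝ)) ∧
      (∃ n : ℕ, x < n ∧ n ≤ x + y ∧ ¬ IsSquare n ∧
        (numRep n : ℝ) ≤ (1 + ε) * (√(n : ℝ) / Real.log n) *
          ∏ q ∈ oddPrimes (Real.log n), (((q : ℝ) - 2) / ((q : ℝ) - 1)))) := by
  constructor
  · intro ε δ hε hδ
    obtain ⟨c, hc, x0, h⟩ := P83e.mean_value ε δ hε hδ
    refine ⟨c, hc, x0, fun x hx y hy e Q hQo hQs hQ he => ?_⟩
    have h1 := h x hx y hy e Q ⟨hQo, hQs, he⟩ hQ
    rw [patternSet_eq e hQs.ne_zero]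
    simp only [numRep_eq]
    exact h1
  · intro ε δ hε hδ
    obtain ⟨x0, h⟩ := P83e.extremes ε δ hε hδ
    refine ⟨x0, fun x hx y hy => ?_⟩
    simp only [numRep_eq]
    exact h x hx y hy

end Pool.Agent.Results.MP_83819a_nt.ExtremeValues
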