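import Pool.Agent.Lib.SSQ.MainR
import Pool.Agent.Lib.SSQ.CorL
import Pool.Agent.Lib.SSQ.KeyC
import Pool.Agent.Lib.SSQ.LowP

/-!
# Integers near a square as a square plus a small prime

For `1 / 12 < θ ≤ 1 / 2` almost all integers `n ≤ x` at distance at most `x ^ θ` from a square (there are about
`2 x ^ (1 / 2 + θ)` of them for `θ < 1 / 2`; all `n ≤ x` for `θ = 1 / 2`) are of the form `m ^ 2 + p` with a prime
`p ≤ √n (log n) ^ B`, and for all but a proportion `δ` of them the least such prime lies between `c √n log n` and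
`C √n log n`, where `c > 0` and `C` depend on `δ`. For longer ranges there is an asymptotic formula: write `n = k ^ 2 + h` with `K < k ≤ 2 K` and
`h₀ < h ≤ h₀ + H`, where `|h₀| ≤ 2 K` and `H ≤ K`: for all but `K H / (log K) ^ A` of the pairs `(k, h)` the number of
`m` in an interval `[M₁, M₂)`, `M₂ ≤ k`, such that `n - m ^ 2` is prime is given by the Hardy-Littlewood formula, for
ALL intervals whose left end `M₁` satisfies `exp ((log log K) ^ 5) ≤ R` and `R (R K) ^ (1 / 6 + ε) ≤ H`, where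
`R = k - M₁`, and all truncations of the singular series; with an arbitrarily small relative error this holds as soon
as `R` is at least a power of `log K`.
-/

set_option autoImplicit false

open Finset Filter

namespace Pool.Agent.Results.MP_83819a_nt.NearSquares

open Pool.Agent.HLB Pool.Agent.HLT Pool.Agent.HLU Pool.Agent.SQP Pool.Agent.SSQ

/-- The singular series truncated at `z`: the product of `1 - (n/p) / (p - 1)` over the odd primes `p ≤ z`. -/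
noncomputable def singular (z n : ℕ) : ℝ :=
  ∏ p ∈ (Icc 3 z).filter Nat.Prime, (1 - (jacobiSym (n : ℤ) p : ℝ) / ((p : ℝ) - 1))

/-- The integers `1 ≤ n ≤ x` at distance at most `T` from a square. -/
def Near (x : ℕ) (T : ℝ) : Set ℕ :=
  {n : ℕ | 1 ≤ n ∧ n ≤ x ∧ ∃ k : ℕ, |(n : ℝ) - (k : ℝ) ^ 2| ≤ T}

/-- `n = m ^ 2 + p` with a prime `p ≤ y`: the least prime `p` such that `n - p` is a square is at most `y`. -/
def Rep (n : ℕ) (y : ℝ) : Prop := ∃ m p : ℕ, p.Prime ∧ n = m ^ 2 + p ∧ (p : ℝ) ≤ y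

lemma singular_eq (z n : ℕ) : singular z n = SQ z n := by
  unfold singular SQ
  refine Finset.prod_congr ?_ fun _ _ => rfl
  ext p
  simp only [Finset.mem_filter, Finset.mem_Icc, Nat.mem_primesLE]
  constructor
  · rintro ⟨⟨h1, h2⟩, h3⟩
    exact ⟨⟨h2, h3⟩, by omega⟩
  · rintro ⟨⟨h1, h2⟩, h3⟩
    have := h2.two_le
    exact ⟨⟨by omega, h1⟩, h2⟩

lemma sum_G0 (S : Finset ℕ) (n : ℕ) :
    ∑ m ∈ S, G0 (n - m ^ 2) = ((S.filter (fun m => (n - m ^ 2).Prime)).card : ℝ) := by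
  unfold G0
  rw [Finset.card_filter]
  push_cast
  rfl

lemma exists_finset (P : ℕ → Prop) (x : ℕ) (T : ℝ) : ∃ S : Finset ℕ, (S : Set ℕ) = {n | n ∈ Near x T ∧ P n} := by
  have hfin : {n | n ∈ Near x T ∧ P n}.Finite := by
    refine (Finset.finite_toSet (Icc 1 x)).subset fun n hn => ?_
    rw [Finset.mem_coe, Finset.mem_Icc]
    exact ⟨hn.1.1, hn.1.2.1⟩
  exact ⟨hfin.toFinset, hfin.coe_toFinset⟩

theorem result :
    -- 1. all integers near a square: the least prime `p` with `n - p` a square lies in `(c √n log n, C √n log n]` outside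
    -- a proportion `δ`, and it is at most `√n (log n) ^ B` outside a proportion `1 / (log x) ^ A`
    (∀ θ : ℝ, 1 / 12 < θ → θ ≤ 1 / 2 →
      (∀ δ : ℝ, 0 < δ → ∃ c C : ℝ, 0 < c ∧ ∃ x₀ : ℕ, ∀ x : ℕ, x₀ ≤ x →
        (({n | n ∈ Near x ((x : ℝ) ^ θ) ∧
            ¬ (¬ Rep n (c * (Real.sqrt n * Real.log n)) ∧ Rep n (C * (Real.sqrt n * Real.log n)))}).ncard : ℝ) ≤
          δ * (x : ℝ) ^ (1 / 2 + θ)) ∧
      (∀ A : ℕ, ∃ B x₀ : ℕ, ∀ x : ℕ, x₀ ≤ x →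
        (({n | n ∈ Near x ((x : ℝ) ^ θ) ∧ ¬ Rep n (Real.sqrt n * Real.log n ^ B)}).ncard : ℝ) ≤
          (x : ℝ) ^ (1 / 2 + θ) / Real.log x ^ A)) ∧
    -- 2. the formula for all intervals and all truncations, for almost all pairs `(k, h)`
    (∀ ε : ℝ, 0 < ε → ∀ A : ℕ, ∃ B K₀ : ℕ, ∀ K H : ℕ, ∀ h₀ : ℤ, K₀ ≤ K → H ≤ K → |h₀| ≤ 2 * K →
      ∃ E : Finset (ℕ × ℤ), (E.card : ℝ) ≤ K * H / Real.log K ^ A ∧
        ∀ k ∈ Ioc K (2 * K), ∀ h ∈ Ioc h₀ (h₀ + H), (k, h) ∉ E → ∀ n : ℕ, (n : ℤ) = (k : ℤ) ^ 2 + h →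
          ∀ M₁ M₂ z : ℕ, M₁ ≤ M₂ → M₂ ≤ k → Real.exp (Real.log (Real.log K) ^ 5) ≤ ((k - M₁ : ℕ) : ℝ) →
            ((k - M₁ : ℕ) : ℝ) * (((k - M₁ : ℕ) : ℝ) * K) ^ (1 / 6 + ε) ≤ H →
            Real.log K ^ B ≤ z → (z : ℝ) ≤ (K : ℝ) ^ (1 / 20 : ℝ) →
            |(((Ico M₁ M₂).filter (fun m => (n - m ^ 2).Prime)).card : ℝ) -
              singular z n * ∑ m ∈ Ico M₁ M₂, 1 / Real.log ((n - m ^ 2 : ℕ) : ℝ)| ≤
                ((k - M₁ : ℕ) : ℝ) / Real.log K ^ A) ∧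
    -- 3. the same for all intervals longer than a power of `log K`, with a small relative error `η`
    (∀ ε η : ℝ, 0 < ε → 0 < η → η ≤ 1 → ∀ A : ℕ, ∃ B N K₀ : ℕ, ∀ K H : ℕ, ∀ h₀ : ℤ, K₀ ≤ K → H ≤ K → |h₀| ≤ 2 * K →
      ∃ E : Finset (ℕ × ℤ), (E.card : ℝ) ≤ K * H / Real.log K ^ A ∧
        ∀ k ∈ Ioc K (2 * K), ∀ h ∈ Ioc h₀ (h₀ + H), (k, h) ∉ E → ∀ n : ℕ, (n : ℤ) = (k : ℤ) ^ 2 + h →
          ∀ M₁ M₂ z : ℕ, M₁ ≤ M₂ → M₂ ≤ k → Real.log K ^ N ≤ ((k - M₁ : ℕ) : ℝ) →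
            ((k - M₁ : ℕ) : ℝ) * (((k - M₁ : ℕ) : ℝ) * K) ^ (1 / 6 + ε) ≤ H →
            Real.log K ^ B ≤ z → (z : ℝ) ≤ (K : ℝ) ^ (1 / 20 : ℝ) →
            |(((Ico M₁ M₂).filter (fun m => (n - m ^ 2).Prime)).card : ℝ) -
              singular z n * ∑ m ∈ Ico M₁ M₂, 1 / Real.log ((n - m ^ 2 : ℕ) : ℝ)| ≤
                η * singular z n * ((k - M₁ : ℕ) : ℝ) / Real.log K) := by
  classical
  refine ⟨fun θ hθ hθ1 => ⟨fun δ hδ => ?_, fun A => ?_⟩, fun ε hε A => ?_, fun ε η hε hη hη1 A => ?_⟩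
  · obtain ⟨C, x₁, hx₁⟩ := corC (θ - 1 / 12) (by linarith) (by linarith) (keyC (θ - 1 / 12) (by linarith)) (δ / 2)
      (by positivity)
    obtain ⟨c, hc, x₂, hx₂⟩ := lowP θ hθ hθ1 (δ / 2) (by positivity)
    have e1 : 1 / 12 + (θ - 1 / 12) = θ := by ring
    have e2 : 7 / 12 + (θ - 1 / 12) = 1 / 2 + θ := by ring
    rw [e1, e2] at hx₁
    refine ⟨c, C, hc, max x₁ x₂, fun x hx => ?_⟩
    obtain ⟨S, hS⟩ := exists_finset
      (fun n => ¬ (¬ Rep n (c * (Real.sqrt n * Real.log n)) ∧ Rep n (C * (Real.sqrt n * Real.log n)))) x ((x : ℝ) ^ θ)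
    obtain ⟨S₁, hS₁⟩ := exists_finset (fun n => ¬ Rep n (C * (Real.sqrt n * Real.log n))) x ((x : ℝ) ^ θ)
    obtain ⟨S₂, hS₂⟩ := exists_finset (fun n => Rep n (c * (Real.sqrt n * Real.log n))) x ((x : ℝ) ^ θ)
    rw [← hS, Set.ncard_coe_finset]
    have hmem₁ : ∀ n ∈ S₁, n ∈ Near x ((x : ℝ) ^ θ) ∧ ¬ Rep n (C * (Real.sqrt n * Real.log n)) := fun n hn => by
      have : n ∈ (S₁ : Set ℕ) := hn
      rw [hS₁] at this
      exact this
    have hmem₂ : ∀ n ∈ S₂, n ∈ Near x ((x : ℝ) ^ θ) ∧ Rep n (c * (Real.sqrt n * Real.log n)) := fun n hn => by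
      have : n ∈ (S₂ : Set ℕ) := hn
      rw [hS₂] at this
      exact this
    have hsub : S ⊆ S₁ ∪ S₂ := by
      intro n hn
      have h1 : n ∈ (S : Set ℕ) := hn
      rw [hS] at h1
      rw [Finset.mem_union]
      by_cases h2 : Rep n (C * (Real.sqrt n * Real.log n))
      · right
        have h3 : Rep n (c * (Real.sqrt n * Real.log n)) := by
          by_contra hcon
          exact h1.2 ⟨hcon, h2⟩
        have h4 : n ∈ (S₂ : Set ℕ) := by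
          rw [hS₂]
          exact ⟨h1.1, h3⟩
        exact h4
      · left
        have h4 : n ∈ (S₁ : Set ℕ) := by
          rw [hS₁]
          exact ⟨h1.1, h2⟩
        exact h4
    have c1 : (S₁.card : ℝ) ≤ δ / 2 * (x : ℝ) ^ (1 / 2 + θ) := by
      refine hx₁ x ((le_max_left _ _).trans hx) S₁ (fun n hn => ?_) (fun n hn => ?_) (fun n hn => (hmem₁ n hn).2)
      · rw [Finset.mem_Icc]
        exact ⟨(hmem₁ n hn).1.1, (hmem₁ n hn).1.2.1⟩
      · obtain ⟨k, hk⟩ := (hmem₁ n hn).1.2.2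
        refine ⟨k, ?_⟩
        push_cast
        exact hk
    have c2 : (S₂.card : ℝ) ≤ δ / 2 * (x : ℝ) ^ (1 / 2 + θ) := by
      refine hx₂ x ((le_max_right _ _).trans hx) S₂ (fun n hn => ?_) (fun n hn => (hmem₂ n hn).1.2.2) (fun n hn => ?_)
      · rw [Finset.mem_Icc]
        exact ⟨(hmem₂ n hn).1.1, (hmem₂ n hn).1.2.1⟩
      · obtain ⟨m, p, hp, hmp, hle⟩ := (hmem₂ n hn).2
        exact ⟨m, p, hp, hmp, hle.trans (le_of_eq (by ring))⟩
    have c3 : (S.card : ℝ) ≤ (S₁.card : ℝ) + S₂.card := by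
      exact_mod_cast (Finset.card_le_card hsub).trans (Finset.card_union_le _ _)
    linarith
  · obtain ⟨B, x₀, hx₀⟩ := corL (θ - 1 / 12) (by linarith) (by linarith) (keyL (θ - 1 / 12) (by linarith)) A
    have e1 : 1 / 12 + (θ - 1 / 12) = θ := by ring
    have e2 : 7 / 12 + (θ - 1 / 12) = 1 / 2 + θ := by ring
    rw [e1, e2] at hx₀
    refine ⟨B, x₀, fun x hx => ?_⟩
    obtain ⟨S, hS⟩ := exists_finset (fun n => ¬ Rep n (Real.sqrt n * Real.log n ^ B)) x ((x : ℝ) ^ θ)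
    rw [← hS, Set.ncard_coe_finset]
    have hmem : ∀ n ∈ S, n ∈ Near x ((x : ℝ) ^ θ) ∧ ¬ Rep n (Real.sqrt n * Real.log n ^ B) := fun n hn => by
      have : n ∈ (S : Set ℕ) := hn
      rw [hS] at this
      exact this
    refine hx₀ x hx S (fun n hn => ?_) (fun n hn => ?_) (fun n hn => (hmem n hn).2)
    · rw [Finset.mem_Icc]
      exact ⟨(hmem n hn).1.1, (hmem n hn).1.2.1⟩
    · obtain ⟨k, hk⟩ := (hmem n hn).1.2.2
      refine ⟨k, ?_⟩
      push_cast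
      exact hk
  · obtain ⟨B, -, K₀, h⟩ := main ε hε A 0
    refine ⟨B, K₀, fun K H h₀ hK hHK hh => ?_⟩
    obtain ⟨E, hE1, hE2⟩ := h K H h₀ hK hHK hh
    refine ⟨E, hE1, fun k hk h hh' hkh n hn M₁ M₂ z hM1 hM2 hR hRH hz1 hz2 => ?_⟩
    have h2 := hE2 k hk h hh' hkh n hn M₁ M₂ z hM1 hM2 hR hRH (Nat.floor_le_of_le hz1) hz2
    rw [sum_G0] at h2
    rw [singular_eq]
    exact h2
  · obtain ⟨B, N, -, K₀, h⟩ := mainR ε η hε hη hη1 A 0
    refine ⟨B, N, K₀, fun K H h₀ hK hHK hh => ?_⟩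
    obtain ⟨E, hE1, hE2⟩ := h K H h₀ hK hHK hh
    refine ⟨E, hE1, fun k hk h hh' hkh n hn M₁ M₂ z hM1 hM2 hR hRH hz1 hz2 => ?_⟩
    have h2 := hE2 k hk h hh' hkh n hn M₁ M₂ z hM1 hM2 hR hRH (Nat.floor_le_of_le hz1) hz2
    rw [sum_G0] at h2
    rw [singular_eq]
    exact h2

end Pool.Agent.Results.MP_83819a_nt.NearSquares
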