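import Pool.Agent.Lib.SPP.XExt
import Pool.Agent.Lib.GMV.ZFr

/-!
# Integers as a square plus a prime: the formula of Hardy and Littlewood with a power saving exceptional set

Notation: `numRep n` is the number `N(n)` of pairs `(m, p)`, `m ≥ 0`, `p` prime, `n = m ^ 2 + p`; `count n M₁ M₂` is the
number of `M₁ < m ≤ M₂` with `n - m ^ 2` prime and `li n M₁ M₂` the sum of `1 / log (n - m ^ 2)` over these `m`;
`S z n` is the product of `1 - (n/p) / (p - 1)` over the primes `2 < p ≤ z`. `HL n X e E` says that the product `S z n`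
converges (`z → ∞`) to a limit `s > 0`, that `|N(n) - s √n / log n| ≤ e s √n / log n`, and that for all intervals
`(M₁, M₂]` with `M₂ ^ 2 + 2 ≤ n` the number `count` is `s li` up to `e s (M₂ - M₁) / log X + E`. `HLi` is the same with
`s li n 0 √(n - 2)` in place of `s √n / log n` in the formula for `N(n)`. `AllBut X E P`: all but at most `E` of the
non-squares `n ≤ X` satisfy `P`.

The proof is unconditional. The library `Pool.Agent.Lib.GMV` contains the explicit formula, the log-free zero density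
estimate and the zero free region; `Pool.Agent.Lib.SPP` the argument for squares (a model of the primes with characters
of conductor at most `Q`, its sum over `n - m ^ 2`, high moments of truncated singular series, the tail of the series).
-/

set_option autoImplicit false

open Finset Filter

namespace Pool.Agent.Results.MP_83819a_nt.PowerSaving

/-- The number of representations of `n` as a square plus a prime: pairs `(m, p)`, `m ≥ 0`, `p` prime,
`n = m ^ 2 + p`. -/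
noncomputable def numRep (n : ℕ) : ℕ := {mp : ℕ × ℕ | mp.2.Prime ∧ n = mp.1 ^ 2 + mp.2}.ncard

/-- The number of `M₁ < m ≤ M₂` with `n - m ^ 2` prime. -/
def count (n M₁ M₂ : ℕ) : ℕ := ((Finset.Ioc M₁ M₂).filter (fun m => (n - m ^ 2).Prime)).card

/-- The sum of `1 / log (n - m ^ 2)` over `M₁ < m ≤ M₂`. -/
noncomputable def li (n M₁ M₂ : ℕ) : ℝ := ∑ m ∈ Finset.Ioc M₁ M₂, 1 / Real.log ((n - m ^ 2 : ℕ) : ℝ)

/-- The product of `1 - (n/p) / (p - 1)` over the primes `2 < p ≤ z`. -/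
noncomputable def S (z n : ℕ) : ℝ :=
  ∏ p ∈ (Finset.Icc 3 z).filter Nat.Prime, (1 - (jacobiSym (n : ℤ) p : ℝ) / ((p : ℝ) - 1))

/-- `s > 0` is the value of the infinite product. -/
def IsSing (n : ℕ) (s : ℝ) : Prop := 0 < s ∧ Tendsto (fun z : ℕ => S z n) atTop (nhds s)

/-- The formula for all intervals, with relative error `e` and additional error `E`. -/
def Intervals (n X : ℕ) (s e E : ℝ) : Prop :=
  ∀ M₁ M₂ : ℕ, M₁ ≤ M₂ → M₂ ^ 2 + 2 ≤ n →
    |(count n M₁ M₂ : ℝ) - s * li n M₁ M₂| ≤ e * (s * ((M₂ : ℝ) - M₁) / Real.log X) + E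

/-- The formula of Hardy and Littlewood. -/
def HL (n X : ℕ) (e E : ℝ) : Prop :=
  ∃ s : ℝ, IsSing n s ∧
    |(numRep n : ℝ) - s * (Real.sqrt n / Real.log n)| ≤ e * (s * (Real.sqrt n / Real.log n)) ∧
    Intervals n X s e E

/-- The formula of Hardy and Littlewood with the sum of `1 / log (n - m ^ 2)`. -/
def HLi (n X : ℕ) (e E : ℝ) : Prop :=
  ∃ s : ℝ, IsSing n s ∧
    |(numRep n : ℝ) - s * li n 0 (Nat.sqrt (n - 2))| ≤ e * (s * (Real.sqrt n / Real.log n)) ∧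
    Intervals n X s e E

/-- The primes `q` with `2 < q ≤ t`. -/
noncomputable def oddPrimes (t : ℝ) : Finset ℕ :=
  open scoped Classical in
  (Finset.range (⌊t⌋₊ + 1)).filter (fun q => q.Prime ∧ 2 < q)

/-- `N(n)` is between the extremal orders, up to factors `1 - e` and `1 + e`. -/
def Extremal (n : ℕ) (e : ℝ) : Prop :=
  (1 - e) * (Real.sqrt n / Real.log n) * ∏ q ∈ oddPrimes (Real.log n), (((q : ℝ) - 2) / ((q : ℝ) - 1)) ≤
    (numRep n : ℝ) ∧
  (numRep n : ℝ) ≤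
    (1 + e) * (Real.sqrt n / Real.log n) * ∏ q ∈ oddPrimes (Real.log n), ((q : ℝ) / ((q : ℝ) - 1))

open scoped Classical in
/-- All but at most `E` of the non-squares `n ≤ X` satisfy `P`. -/
def AllBut (X : ℕ) (E : ℝ) (P : ℕ → Prop) : Prop :=
  (((Finset.Icc 1 X).filter fun n => ¬ IsSquare n ∧ ¬ P n).card : ℝ) ≤ E

/-- `q = 0`, or `q ≤ Q` is the modulus of a real primitive character `χ ≠ 1` whose L-function has a
zero in `[1 - b / log Q, 1)`. -/
def Exceptional (b : ℝ) (Q q : ℕ) : Prop :=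
  q = 0 ∨ ∃ (m : ℕ) (χ : DirichletCharacter ℂ (m + 1)) (β : ℝ), q = m + 1 ∧ q ≤ Q ∧
    χ.IsPrimitive ∧ χ ≠ 1 ∧ χ ^ 2 = 1 ∧ DirichletCharacter.LFunction χ (β : ℂ) = 0 ∧
    1 - b / Real.log Q ≤ β ∧ β < 1

/-- `(q / gcd (q, n)) ^ (-1/2)`, and `0` if `q = 0`. -/
noncomputable def G (q n : ℕ) : ℝ :=
  if q = 0 then 0 else ((q : ℝ) / (Nat.gcd q n : ℝ)) ^ (-(1 / 2 : ℝ))

section Bridge

open Pool.Agent.Lib.GMV Pool.Agent.Lib.SPP

private lemma numRep_eq (n : ℕ) : numRep n = Nn n := by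
  classical
  unfold numRep Nn
  have h : {mp : ℕ × ℕ | mp.2.Prime ∧ n = mp.1 ^ 2 + mp.2} =
      ↑(((Finset.range (n + 1)).filter (fun m => (n - m ^ 2).Prime)).image (fun m => (m, n - m ^ 2))) := by
    ext ⟨m, p⟩
    simp only [Set.mem_ofPred_eq, Finset.coe_image, Finset.coe_filter, Finset.mem_range, Set.mem_image,
      Prod.mk.injEq]
    constructor
    · rintro ⟨hp, hn⟩
      refine ⟨m, ⟨?_, ?_⟩, rfl, by omega⟩
      · have : m ≤ m ^ 2 := Nat.le_self_pow (by norm_num) m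
        omega
      · have : n - m ^ 2 = p := by omega
        rwa [this]
    · rintro ⟨m', ⟨_, h2⟩, h3, h4⟩
      subst h3
      have : 0 < n - m' ^ 2 := h2.pos
      exact ⟨h4 ▸ h2, by omega⟩
  rw [h, Set.ncard_coe_finset, Finset.card_image_of_injective]
  intro a b hab
  simpa using congrArg Prod.fst hab

private lemma S_eq (z n : ℕ) : SS z 1 n = S z n := by
  unfold SS S
  have h1 : (Finset.Icc 3 z).filter Nat.Prime ⊆ (Nat.primesLE z).filter (fun p => ¬ p ∣ 1) := by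
    intro p hp
    rw [mem_filter, mem_Icc] at hp
    rw [mem_filter, Nat.mem_primesLE]
    exact ⟨⟨hp.1.2, hp.2⟩, fun h => hp.2.one_lt.ne' (Nat.dvd_one.1 h)⟩
  rw [← Finset.prod_subset h1]
  · refine Finset.prod_congr rfl fun p hp => ?_
    rw [mem_filter, mem_Icc] at hp
    unfold gp
    rw [if_neg (by omega)]
    ring
  · intro p hp hp2
    rw [mem_filter, Nat.mem_primesLE] at hp
    rw [mem_filter, mem_Icc] at hp2
    have h2 : p = 2 := by
      by_contra hne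
      have := hp.1.2.two_le
      exact hp2 ⟨⟨by omega, hp.1.1⟩, hp.1.2⟩
    unfold gp
    rw [if_pos h2, add_zero]

private lemma isSing_of {n : ℕ} {s : ℝ} (hs : 0 < s)
    (h : Tendsto (fun N : ℕ => SS N 1 n) atTop (nhds s)) : IsSing n s := by
  refine ⟨hs, ?_⟩
  simp only [S_eq] at h
  exact h

private lemma allBut_of {X : ℕ} {E : ℝ} {P : ℕ → ℝ → Prop} {P' : ℕ → Prop} (h : ABs X E P)
    (hP : ∀ n s, 0 < s → Tendsto (fun N : ℕ => SS N 1 n) atTop (nhds s) → P n s → P' n) :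
    AllBut X E P' := by
  classical
  obtain ⟨F, -, hF, h⟩ := h
  refine le_trans ?_ hF
  norm_cast
  refine Finset.card_le_card fun n hn => ?_
  rw [mem_filter] at hn
  obtain ⟨h1, h2, h3⟩ := hn
  by_contra hcon
  obtain ⟨s, hs, ht, hp⟩ := h n h1 hcon h2
  exact h3 (hP n s hs ht hp)

private lemma hli_of {n X : ℕ} {s e E : ℝ} (hs : 0 < s)
    (ht : Tendsto (fun N : ℕ => SS N 1 n) atTop (nhds s)) (h : HLs n X s e E) : HLi n X e E := by
  refine ⟨s, isSing_of hs ht, ?_, h.2⟩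
  rw [numRep_eq]
  exact h.1

private lemma oddPrimes_eq (t : ℝ) : oddPrimes t = Pool.Agent.P83e.oddPr t := by
  classical
  unfold oddPrimes Pool.Agent.P83e.oddPr
  ext q
  simp only [Finset.mem_filter]

private lemma hl_of (ε : ℝ) (hε : 0 < ε) : ∃ X0 : ℕ, ∀ (X n : ℕ) (s E : ℝ), X0 ≤ X → 0 < s →
    Tendsto (fun N : ℕ => SS N 1 n) atTop (nhds s) → Real.sqrt X ≤ n → HLs n X s (min ε 1 / 8) E →
    Bd (min ε 1 / 4) n s → HL n X ε E ∧ Extremal n ε := by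
  set e : ℝ := min ε 1 with he
  have he0 : 0 < e := lt_min hε one_pos
  have he1 : e ≤ 1 := min_le_right _ _
  have heε : e ≤ ε := min_le_left _ _
  obtain ⟨n0, hn0⟩ := eventually_atTop.1 (asy (e / 8) (by linarith))
  refine ⟨n0 ^ 2, fun X n s E hX hs ht hn h hB => ?_⟩
  have h1 : n0 ≤ n := by
    have h2 : (n0 : ℝ) ≤ n := by
      refine le_trans ?_ hn
      apply Real.le_sqrt_of_sq_le
      exact_mod_cast hX
    exact_mod_cast h2
  have h3 := hn0 n h1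
  set T : ℝ := Real.sqrt n / Real.log n with hT'
  have hT : 0 ≤ T := div_nonneg (Real.sqrt_nonneg _) (Real.log_natCast_nonneg n)
  have hsT : 0 ≤ s * T := mul_nonneg hs.le hT
  have hmain : |(numRep n : ℝ) - s * T| ≤ e / 4 * (s * T) := by
    rw [numRep_eq]
    have h4 : |s * Li n 0 (Nat.sqrt (n - 2)) - s * T| ≤ s * (e / 8 * T) := by
      rw [← mul_sub, abs_mul, abs_of_pos hs]
      exact mul_le_mul_of_nonneg_left h3 hs.le
    have h5 := abs_sub_le (Nn n : ℝ) (s * Li n 0 (Nat.sqrt (n - 2))) (s * T)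
    have h6 := h.1
    calc _ ≤ _ := h5
      _ ≤ e / 8 * (s * T) + s * (e / 8 * T) := add_le_add h6 h4
      _ = _ := by ring
  refine ⟨⟨s, isSing_of hs ht, ?_, fun M₁ M₂ h12 hM => (h.2 M₁ M₂ h12 hM).trans ?_⟩, ?_⟩
  · refine hmain.trans (mul_le_mul_of_nonneg_right ?_ hsT)
    linarith
  · have h7 : (M₁ : ℝ) ≤ M₂ := by exact_mod_cast h12
    have h8 : 0 ≤ s * ((M₂ : ℝ) - M₁) / Real.log X :=
      div_nonneg (mul_nonneg hs.le (by linarith)) (Real.log_natCast_nonneg X)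
    have h9 : e / 8 * (s * ((M₂ : ℝ) - M₁) / Real.log X) ≤ ε * (s * ((M₂ : ℝ) - M₁) / Real.log X) :=
      mul_le_mul_of_nonneg_right (by linarith) h8
    linarith
  · obtain ⟨b1, b2⟩ := hB
    obtain ⟨m1, m2⟩ := abs_le.1 hmain
    unfold Extremal
    rw [oddPrimes_eq]
    have hP1 := XExtAux.Pmin_nonneg n
    have hP2 := XExtAux.Pmax_nonneg n
    change (1 - ε) * T * Pmin n ≤ _ ∧ _ ≤ (1 + ε) * T * Pmax n
    constructor
    · have k1 : (1 - e / 4) * (s * T) ≤ (numRep n : ℝ) := by linarith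
      have k2 : (1 - e / 4) * ((1 - e / 4) * Pmin n * T) ≤ (1 - e / 4) * (s * T) :=
        mul_le_mul_of_nonneg_left (mul_le_mul_of_nonneg_right b1 hT) (by linarith)
      have k3 : 0 ≤ T * Pmin n := mul_nonneg hT hP1
      have k4 : (1 - ε) * (T * Pmin n) ≤ (1 - e / 4) * (1 - e / 4) * (T * Pmin n) :=
        mul_le_mul_of_nonneg_right (by nlinarith) k3
      calc (1 - ε) * T * Pmin n = (1 - ε) * (T * Pmin n) := by ring
        _ ≤ _ := k4
        _ = (1 - e / 4) * ((1 - e / 4) * Pmin n * T) := by ring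
        _ ≤ _ := k2.trans k1
    · have k1 : (numRep n : ℝ) ≤ (1 + e / 4) * (s * T) := by linarith
      have k2 : (1 + e / 4) * (s * T) ≤ (1 + e / 4) * ((1 + e / 4) * Pmax n * T) :=
        mul_le_mul_of_nonneg_left (mul_le_mul_of_nonneg_right b2 hT) (by linarith)
      have k3 : 0 ≤ T * Pmax n := mul_nonneg hT hP2
      have k4 : (1 + e / 4) * (1 + e / 4) * (T * Pmax n) ≤ (1 + ε) * (T * Pmax n) :=
        mul_le_mul_of_nonneg_right (by nlinarith) k3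
      calc (numRep n : ℝ) ≤ _ := k1.trans k2
        _ = (1 + e / 4) * (1 + e / 4) * (T * Pmax n) := by ring
        _ ≤ _ := k4
        _ = _ := by ring

/-- Combination of a power saving statement with the extreme values. -/
private lemma comb (ε δ1 : ℝ) (hε : 0 < ε) (hδ1 : 0 < δ1) : ∃ δ : ℝ, 0 < δ ∧ ∃ X0 : ℕ, ∀ X : ℕ, X0 ≤ X →
    ∀ R : ℕ → Prop, (ABs X ((X : ℝ) ^ (1 - δ1)) fun n s => R n ∨
      (Real.sqrt X ≤ n ∧ HLs n X s (min ε 1 / 8) ((X : ℝ) ^ (1 / 2 - δ1)))) →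
    AllBut X ((X : ℝ) ^ (1 - δ)) fun n => R n ∨ (HL n X ε ((X : ℝ) ^ (1 / 2 - δ)) ∧ Extremal n ε) := by
  have he0 : 0 < min ε 1 := lt_min hε one_pos
  obtain ⟨δ2, hδ2, X1, h1⟩ := add_ext (min ε 1 / 4) (by linarith)
  obtain ⟨X2, h2⟩ := eventually_atTop.1 (XExtAux.two_pow δ1 δ2 hδ1 hδ2)
  obtain ⟨X3, h3⟩ := hl_of ε hε
  have hmin : 0 < min δ1 δ2 := lt_min hδ1 hδ2
  refine ⟨min δ1 δ2 / 2, by linarith, max (max X1 X2) (max X3 1), fun X hX R hAB => ?_⟩
  have hX1 : (1 : ℝ) ≤ X := by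
    exact_mod_cast (le_max_right _ _).trans ((le_max_right _ _).trans hX)
  have h4 := h1 X ((le_max_left _ _).trans ((le_max_left _ _).trans hX)) _ _ hAB
  have h5 := h2 X ((le_max_right _ _).trans ((le_max_left _ _).trans hX))
  refine allBut_of (FinCAux.ABs_mono h4 h5 (fun n s _ h => h)) ?_
  rintro n s hs ht ⟨hr | ⟨hn, hH⟩, hB⟩
  · exact Or.inl hr
  · right
    refine h3 X n s _ ((le_max_left _ _).trans ((le_max_right _ _).trans hX)) hs ht hn ?_ (hB hn)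
    refine FinCAux.HLs_mono hs hH le_rfl ?_
    refine Real.rpow_le_rpow_of_exponent_le hX1 ?_
    have := min_le_left δ1 δ2
    linarith

private lemma exc_of {c b : ℝ} {Q q : ℕ} (hQ : 0 < Real.log Q) (hcb : c ≤ b) (h : ExMod c Q q) :
    Exceptional b Q q := by
  rcases h with ⟨h0, -⟩ | ⟨x, β, ⟨h1, h2, h3, h4, h5, h6⟩, hq⟩
  · exact Or.inl h0
  · right
    refine ⟨x.1, x.2, β, hq, ?_, (mem_Ch.1 h1).2, h2, h3, ?_, ?_, h6⟩
    · rw [hq]
      exact (mem_Ch.1 h1).1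
    · rwa [Lf_of_ne h2] at h4
    · have : c / Real.log Q ≤ b / Real.log Q := div_le_div_of_nonneg_right hcb hQ.le
      linarith

end Bridge

open Pool.Agent.Lib.GMV Pool.Agent.Lib.SPP in
theorem result :
    -- (1) all `X`, integers `n` without a divisor in `(w, X ^ κ]`
    (∀ ε κ : ℝ, 0 < ε → 0 < κ → ∀ w : ℕ, ∃ δ : ℝ, 0 < δ ∧ ∃ X0 : ℕ, ∀ X : ℕ, X0 ≤ X →
      AllBut X ((X : ℝ) ^ (1 - δ)) fun n =>
        (∃ d : ℕ, d ∣ n ∧ w < d ∧ (d : ℝ) ≤ (X : ℝ) ^ κ) ∨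
          (HL n X ε ((X : ℝ) ^ (1 / 2 - δ)) ∧ Extremal n ε)) ∧
    -- (2) arbitrarily large `X`, all integers
    (∀ ε : ℝ, 0 < ε → ∃ δ : ℝ, 0 < δ ∧ ∀ N : ℕ, ∃ X : ℕ, N ≤ X ∧
      AllBut X ((X : ℝ) ^ (1 - δ)) fun n => HL n X ε ((X : ℝ) ^ (1 / 2 - δ)) ∧ Extremal n ε) ∧
    -- (3) all `X`, integers `n` with `K gcd(q, n) ≤ q`
    (∀ ε κ : ℝ, 0 < ε → 0 < κ → ∃ δ : ℝ, 0 < δ ∧ ∃ K : ℕ, ∀ A : ℕ, ∃ X0 : ℕ, ∀ X : ℕ, X0 ≤ X →
      ∃ q : ℕ, (q : ℝ) ≤ (X : ℝ) ^ κ ∧ (q = 0 ∨ Real.log X ^ A ≤ q) ∧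
        AllBut X ((X : ℝ) ^ (1 - δ)) fun n =>
          (q ≠ 0 ∧ q < K * Nat.gcd q n) ∨
            (HL n X ε ((X : ℝ) ^ (1 / 2 - δ)) ∧ Extremal n ε)) ∧
    -- (4) error a power of the logarithm
    (∀ (A B : ℕ) (κ : ℝ), 0 < κ → ∃ δ : ℝ, 0 < δ ∧ ∃ X0 : ℕ, ∀ X : ℕ, X0 ≤ X →
      AllBut X (X * Real.exp (-(δ * Real.log X / Real.log (Real.log X)))) fun n =>
        (∃ d : ℕ, d ∣ n ∧ Real.log X ^ B < d ∧ (d : ℝ) ≤ (X : ℝ) ^ κ) ∨
          HLi n X (1 / Real.log X ^ A)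
            (Real.sqrt X * Real.exp (-(δ * Real.log X / Real.log (Real.log X))))) ∧
    -- (5) the general theorem
    (∀ (A : ℕ) (b : ℝ), 0 < b → ∃ c C : ℝ, 0 < c ∧ 0 < C ∧ ∃ X0 : ℕ, ∀ X : ℕ, X0 ≤ X → ∀ Q : ℕ,
      Real.exp (Real.sqrt (Real.log X)) ≤ Q → (Q : ℝ) ≤ (X : ℝ) ^ c →
      ∃ q : ℕ, Exceptional b Q q ∧
        AllBut X (X * (Q : ℝ) ^ (-(1 / 100 : ℝ))) fun n =>
          HLi n X (C * (Real.exp (-(c * Real.log X / Real.log Q)) + G q n + 1 / Real.log X ^ A))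
            (Real.sqrt X * (Q : ℝ) ^ (-(1 / 70 : ℝ)))) := by
  obtain ⟨c1, hc1, hz⟩ := zero_free
  have hZ : ZFree c1 := hz
  refine ⟨?_, ?_, ?_, ?_, ?_⟩
  · intro ε κ hε hκ w
    have he0 : 0 < min ε 1 := lt_min hε one_pos
    obtain ⟨δ1, hδ1, X1, h⟩ := fin_div c1 hZ hc1 (min ε 1 / 8) (by linarith) κ hκ w
    obtain ⟨δ, hδ, X2, h2⟩ := comb ε δ1 hε hδ1
    refine ⟨δ, hδ, max X1 X2, fun X hX => ?_⟩
    exact h2 X ((le_max_right _ _).trans hX) _ (h X ((le_max_left _ _).trans hX))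
  · intro ε hε
    have he0 : 0 < min ε 1 := lt_min hε one_pos
    obtain ⟨δ1, hδ1, h⟩ := fin_inf c1 hZ hc1 (min ε 1 / 8) (by linarith)
    obtain ⟨δ, hδ, X2, h2⟩ := comb ε δ1 hε hδ1
    refine ⟨δ, hδ, fun N => ?_⟩
    obtain ⟨X, hX, hAB⟩ := h (max N X2)
    refine ⟨X, (le_max_left _ _).trans hX, ?_⟩
    have h3 := h2 X ((le_max_right _ _).trans hX) (fun _ => False)
      (FinCAux.ABs_mono hAB le_rfl (fun n s _ h => Or.inr h))
    simpa only [false_or] using h3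
  · intro ε κ hε hκ
    have he0 : 0 < min ε 1 := lt_min hε one_pos
    obtain ⟨δ1, hδ1, K, h⟩ := fin_mod c1 hZ hc1 (min ε 1 / 8) (by linarith) κ hκ
    obtain ⟨δ, hδ, X2, h2⟩ := comb ε δ1 hε hδ1
    refine ⟨δ, hδ, K, fun A => ?_⟩
    obtain ⟨X1, h1⟩ := h A
    refine ⟨max X1 X2, fun X hX => ?_⟩
    obtain ⟨q, hq1, hq2, hAB⟩ := h1 X ((le_max_left _ _).trans hX)
    exact ⟨q, hq1, hq2, h2 X ((le_max_right _ _).trans hX) _ hAB⟩
  · intro A B κ hκ
    obtain ⟨δ, hδ, X1, h⟩ := fin_log c1 hZ hc1 A B κ hκ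
    refine ⟨δ, hδ, X1, fun X hX => ?_⟩
    refine allBut_of (h X hX) ?_
    rintro n s hs ht (hd | ⟨hn, hH⟩)
    · exact Or.inl hd
    · exact Or.inr (hli_of hs ht hH)
  · intro A b hb
    set c' : ℝ := min b (c1 / 2) with hc'
    have hc'0 : 0 < c' := lt_min hb (by linarith)
    have hc'1 : c' < c1 := lt_of_le_of_lt (min_le_right _ _) (by linarith)
    obtain ⟨a, C, c2, ha, hC, hc2, X1, h⟩ := finB A c1 c' hZ hc'0 hc'1
    refine ⟨min a c2, C, lt_min ha hc2, hC, max X1 3, fun X hX Q hQ1 hQ2 => ?_⟩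
    have hX3 : (3 : ℝ) ≤ X := by exact_mod_cast (le_max_right _ _).trans hX
    have hX1 : (1 : ℝ) ≤ X := by linarith
    have hL : 0 < Real.log X := Real.log_pos (by linarith)
    have hQ2' : (Q : ℝ) ≤ (X : ℝ) ^ c2 :=
      hQ2.trans (Real.rpow_le_rpow_of_exponent_le hX1 (min_le_right _ _))
    obtain ⟨q, hq, hAB⟩ := h X Q ((le_max_left _ _).trans hX) hQ1 hQ2'
    have hQlog : 0 < Real.log Q := by
      have h3 := Real.log_le_log (Real.exp_pos _) hQ1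
      rw [Real.log_exp] at h3
      exact lt_of_lt_of_le (Real.sqrt_pos.2 hL) h3
    refine ⟨q, exc_of hQlog (min_le_left _ _) hq, allBut_of hAB ?_⟩
    rintro n s hs ht ⟨hn, hH⟩
    refine hli_of hs ht (FinCAux.HLs_mono hs hH ?_ le_rfl)
    refine mul_le_mul_of_nonneg_left ?_ hC.le
    have h4 : Er a X Q ≤ Real.exp (-(min a c2 * Real.log X / Real.log Q)) := by
      unfold Er
      apply Real.exp_le_exp.2
      rw [neg_le_neg_iff]
      refine div_le_div_of_nonneg_right ?_ hQlog.le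
      exact mul_le_mul_of_nonneg_right (min_le_left _ _) hL.le
    have h5 : Gs q n = G q n := rfl
    rw [h5]
    linarith

end Pool.Agent.Results.MP_83819a_nt.PowerSaving
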