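import Pool.Agent.Lib.SQP.Core
import Pool.Agent.Lib.SQP.TruncAll

/-!
# Integers as a prime plus a small square

For almost all `n` the Hardy-Littlewood formula for the number of `m ≤ M` such that `n - m ^ 2` is prime holds for ALL
`M` between `n ^ (1 / 12 + ε)` and `√n`. In particular almost all `n` are of the form `m ^ 2 + p` with
`m ≤ n ^ (1 / 12 + ε)`. For EVERY sequence `c` with `|c m| ≤ 1` the sum of `c m` over the `m ≤ M` such that `n - m ^ 2`
is prime is for almost all `n` and all these `M` given by the sieve model of the primes (for example `c` may be the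
indicator of an arbitrary set of integers `m`).

The exceptional sets have at most `x / (log x) ^ A` elements up to `x`.
-/

set_option autoImplicit false

open Finset Filter

namespace Pool.Agent.Results.MP_83819a_nt.SmallSquares

open Pool.Agent.HLB Pool.Agent.HLT Pool.Agent.HLU Pool.Agent.SQP

/-- The singular series truncated at `z`: the product of `1 - (n/p) / (p - 1)` over the odd primes `p ≤ z`. -/
noncomputable def singular (z n : ℕ) : ℝ :=
  ∏ p ∈ (Icc 3 z).filter Nat.Prime, (1 - (jacobiSym (n : ℤ) p : ℝ) / ((p : ℝ) - 1))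

/-- `1 / ((log k) ∏_{q ≤ z} (1 - 1 / q))` if `k` has no prime factor `q ≤ z`, and `0` otherwise. -/
noncomputable def model (z k : ℕ) : ℝ :=
  if ∀ q ∈ Nat.primesLE z, ¬ q ∣ k then
    (∏ q ∈ Nat.primesLE z, (1 - 1 / (q : ℝ)))⁻¹ / Real.log k else 0

lemma singular_eq (z n : ℕ) : singular z n = SQ z n := by
  unfold singular SQ
  refine Finset.prod_congr ?_ fun _ _ => rfl
  ext p
  simp only [Finset.mem_filter, Finset.mem_Icc, Nat.mem_primesLE]
  constructor
  · rintro ⟨⟨h1, h2⟩, h3⟩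
    exact ⟨⟨h2, h3⟩, by omega⟩
  · rintro ⟨⟨h1, h2⟩, h3⟩
    have := h2.two_le
    exact ⟨⟨by omega, h1⟩, h2⟩

lemma model_eq (z k : ℕ) : model z k = G1 z k := by
  unfold model G1 nuz ic DZ
  split_ifs
  · rw [mul_one, mul_one_div]
  · rw [mul_zero, zero_mul]

lemma sum_G0 (S : Finset ℕ) (n : ℕ) :
    ∑ m ∈ S, G0 (n - m ^ 2) = ((S.filter (fun m => (n - m ^ 2).Prime)).card : ℝ) := by
  unfold G0
  rw [Finset.card_filter]
  push_cast
  rfl

theorem result (ε : ℝ) (hε : 0 < ε) (A : ℕ) : ∃ B x₀ : ℕ, ∀ x : ℕ, x₀ ≤ x →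
    -- 1., 2. all squares
    (∃ E ⊆ Icc 1 x, (E.card : ℝ) ≤ x / Real.log x ^ A ∧ ∀ n ∈ Icc 1 x, n ∉ E →
      (∃ m p : ℕ, p.Prime ∧ n = m ^ 2 + p ∧ (m : ℝ) ≤ (n : ℝ) ^ (1 / 12 + ε)) ∧
      ∀ M z : ℕ, (n : ℝ) ^ (1 / 12 + ε) ≤ M → M ^ 2 + 2 ≤ n →
        Real.log x ^ B ≤ z → (z : ℝ) ≤ (x : ℝ) ^ (1 / 3 : ℝ) →
        |(((range (M + 1)).filter (fun m => (n - m ^ 2).Prime)).card : ℝ) -
          singular z n * ∑ m ∈ range (M + 1), 1 / Real.log ((n - m ^ 2 : ℕ) : ℝ)| ≤ M / Real.log x ^ A) ∧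
    -- 3. arbitrary bounded weights
    ∀ c : ℕ → ℂ, (∀ m, ‖c m‖ ≤ 1) → ∃ E ⊆ Icc 1 x, (E.card : ℝ) ≤ x / Real.log x ^ A ∧ ∀ n ∈ Icc 1 x, n ∉ E →
      ∀ M : ℕ, (n : ℝ) ^ (1 / 12 + ε) ≤ M → M ^ 2 + 2 ≤ n →
        ‖∑ m ∈ (range (M + 1)).filter (fun m => (n - m ^ 2).Prime), c m -
          ∑ m ∈ range (M + 1), c m * (model ⌊Real.log x ^ B⌋₊ (n - m ^ 2) : ℂ)‖ ≤ M / Real.log x ^ A := by
  classical
  set ε₁ : ℝ := min ε (1 / 12) / 2 with hε₁
  have hε₁0 : 0 < ε₁ := by positivity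
  have hε₁a : 2 * ε₁ ≤ ε := by
    rw [hε₁]
    linarith [min_le_left ε (1 / 12)]
  have hε₁b : 2 * ε₁ ≤ 1 / 12 := by
    rw [hε₁]
    linarith [min_le_right ε (1 / 12)]
  obtain ⟨B, hB, h1⟩ := core ε₁ hε₁0 (A + 4) (4 * (A + 4) + 12)
  have e1 : ∀ᶠ x : ℕ in atTop, 2 * Real.log x ^ (A + 2) ≤ (x : ℝ) ^ ε₁ := by
    have h1 : (fun x : ℝ => Real.log x ^ (A + 2)) =o[atTop] (fun x : ℝ => x ^ ε₁) := by
      have h := isLittleO_log_rpow_rpow_atTop ((A + 2 : ℕ) : ℝ) hε₁0
      simp only [Real.rpow_natCast] at h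
      exact h
    have h2 := (h1.comp_tendsto tendsto_natCast_atTop_atTop).bound (show (0:ℝ) < 1 / 2 by norm_num)
    filter_upwards [h2, ev_log 1] with x hx hL
    simp only [Function.comp_def] at hx
    rw [Real.norm_of_nonneg (by positivity), Real.norm_of_nonneg (by positivity)] at hx
    linarith
  have e2 : ∀ᶠ x : ℕ in atTop, (16 : ℝ) ≤ (x : ℝ) ^ (1 / 2 : ℝ) :=
    ((tendsto_rpow_atTop (by norm_num : (0 : ℝ) < 1 / 2)).comp tendsto_natCast_atTop_atTop).eventually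
      (eventually_ge_atTop _)
  have e3 : ∀ᶠ x : ℕ in atTop, Real.log x ^ (A + 2) ≤ (x : ℝ) ^ (1 / 2 : ℝ) := by
    have h1 : (fun x : ℝ => Real.log x ^ (A + 2)) =o[atTop] (fun x : ℝ => x ^ (1 / 2 : ℝ)) := by
      have h := isLittleO_log_rpow_rpow_atTop ((A + 2 : ℕ) : ℝ) (show (0:ℝ) < 1 / 2 by norm_num)
      simp only [Real.rpow_natCast] at h
      exact h
    have h2 := (h1.comp_tendsto tendsto_natCast_atTop_atTop).bound (show (0:ℝ) < 1 by norm_num)
    filter_upwards [h2, ev_log 1] with x hx hL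
    simp only [Function.comp_def, one_mul] at hx
    rwa [Real.norm_of_nonneg (by positivity), Real.norm_of_nonneg (by positivity)] at hx
  obtain ⟨x₀, hx₀⟩ := eventually_atTop.mp (h1.and (e1.and (e2.and (e3.and ((trunc (A + 4) B hB).and
    ((sieve_sq (A + 4) B).and ((ev_log 8).and ((DZ_inv_le B).and (eventually_ge_atTop 1)))))))))
  refine ⟨B, x₀, fun x hx => ?_⟩
  obtain ⟨h1, e1, e2, e3, h2, h3, hL, hD, hx1⟩ := hx₀ x hx
  set L := Real.log x with hLdef
  have hL0 : 0 < L := by linarith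
  have hL1 : 1 ≤ L := by linarith
  have hx0 : (0 : ℝ) < x := by exact_mod_cast hx1
  have hx1r : (1 : ℝ) ≤ x := by exact_mod_cast hx1
  -- the small `n`
  set Y := ⌊(x : ℝ) / L ^ (A + 2)⌋₊ with hY
  have hYle : (Y : ℝ) ≤ x / L ^ (A + 2) := Nat.floor_le (by positivity)
  have hYx : Icc 1 Y ⊆ Icc 1 x := by
    refine Finset.Icc_subset_Icc le_rfl ?_
    have h4 : (Y : ℝ) ≤ x := hYle.trans (div_le_self hx0.le (one_le_pow₀ hL1))
    exact_mod_cast h4
  have hbig : ∀ n : ℕ, n ∈ Icc 1 x → n ∉ Icc 1 Y → (x : ℝ) / L ^ (A + 2) < n := by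
    intro n hn hnY
    have h4 := Finset.mem_Icc.mp hn
    have h5 : Y < n := by
      by_contra hcon
      exact hnY (Finset.mem_Icc.mpr ⟨h4.1, by omega⟩)
    exact Nat.lt_of_floor_lt h5
  have hpow : ∀ n : ℕ, (x : ℝ) / L ^ (A + 2) < n → 2 * (x : ℝ) ^ (1 / 12 + ε₁) ≤ (n : ℝ) ^ (1 / 12 + 2 * ε₁) := by
    intro n hn
    have h4 : (x : ℝ) ^ (1 / 12 + 2 * ε₁) / L ^ (A + 2) ≤ (n : ℝ) ^ (1 / 12 + 2 * ε₁) := by
      calc (x : ℝ) ^ (1 / 12 + 2 * ε₁) / L ^ (A + 2) ≤
          (x : ℝ) ^ (1 / 12 + 2 * ε₁) / (L ^ (A + 2)) ^ (1 / 12 + 2 * ε₁) := by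
            refine div_le_div_of_nonneg_left (by positivity) (by positivity) ?_
            calc (L ^ (A + 2)) ^ (1 / 12 + 2 * ε₁) ≤ (L ^ (A + 2)) ^ (1 : ℝ) :=
                  Real.rpow_le_rpow_of_exponent_le (one_le_pow₀ hL1) (by linarith)
              _ = L ^ (A + 2) := Real.rpow_one _
        _ = ((x : ℝ) / L ^ (A + 2)) ^ (1 / 12 + 2 * ε₁) := by
            rw [Real.div_rpow hx0.le (by positivity)]
        _ ≤ (n : ℝ) ^ (1 / 12 + 2 * ε₁) := Real.rpow_le_rpow (by positivity) hn.le (by linarith)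
    refine le_trans ?_ h4
    rw [le_div_iff₀ (by positivity)]
    have h5 : (x : ℝ) ^ (1 / 12 + 2 * ε₁) = (x : ℝ) ^ (1 / 12 + ε₁) * (x : ℝ) ^ ε₁ := by
      rw [← Real.rpow_add hx0]
      congr 1
      ring
    rw [h5]
    have h6 : (0 : ℝ) ≤ (x : ℝ) ^ (1 / 12 + ε₁) := by positivity
    nlinarith
  have hpow' : ∀ n M : ℕ, (x : ℝ) / L ^ (A + 2) < n → (n : ℝ) ^ (1 / 12 + ε) ≤ M →
      (x : ℝ) ^ (1 / 12 + ε₁) ≤ M := by
    intro n M hn hM
    have h4 := hpow n hn
    have hn1 : (1 : ℝ) ≤ n := by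
      have h5 : (0 : ℝ) < n := lt_of_le_of_lt (by positivity) hn
      have h6 : 0 < n := by exact_mod_cast h5
      exact_mod_cast h6
    have h7 : (n : ℝ) ^ (1 / 12 + 2 * ε₁) ≤ (n : ℝ) ^ (1 / 12 + ε) :=
      Real.rpow_le_rpow_of_exponent_le hn1 (by linarith)
    have h8 : (0 : ℝ) ≤ (x : ℝ) ^ (1 / 12 + ε₁) := by positivity
    linarith
  have hcard1 : ∀ E : Finset ℕ, (E.card : ℝ) ≤ 2 * (x / L ^ (A + 4)) →
      ((E ∪ Icc 1 Y).card : ℝ) ≤ x / L ^ A := by
    intro E hE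
    have h4 : ((E ∪ Icc 1 Y).card : ℝ) ≤ E.card + Y := by
      have h5 := Finset.card_union_le E (Icc 1 Y)
      rw [Nat.card_Icc, Nat.add_sub_cancel] at h5
      exact_mod_cast h5
    have h6 : 2 * (x / L ^ (A + 4)) + x / L ^ (A + 2) = (x / L ^ A) * (2 / L ^ 4 + 1 / L ^ 2) := by
      rw [pow_add, pow_add]
      field_simp
    have h7 : 2 / L ^ 4 + 1 / L ^ 2 ≤ 1 := by
      have h8 : 2 / L ^ 4 ≤ 1 / 2 := by
        rw [div_le_div_iff₀ (by positivity) (by norm_num)]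
        have : L ≤ L ^ 4 := le_self_pow₀ hL1 (by norm_num)
        linarith
      have h9 : 1 / L ^ 2 ≤ 1 / 2 := by
        rw [div_le_div_iff₀ (by positivity) (by norm_num)]
        have : L ≤ L ^ 2 := le_self_pow₀ hL1 (by norm_num)
        linarith
      linarith
    calc ((E ∪ Icc 1 Y).card : ℝ) ≤ E.card + Y := h4
      _ ≤ 2 * (x / L ^ (A + 4)) + x / L ^ (A + 2) := add_le_add hE hYle
      _ = (x / L ^ A) * (2 / L ^ 4 + 1 / L ^ 2) := h6
      _ ≤ x / L ^ A := mul_le_of_le_one_right (by positivity) h7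
  refine ⟨?_, fun c hc => ?_⟩
  · obtain ⟨E1, hE1, hE1c, hE1b⟩ := h1 (fun _ => 1) (fun _ => by rw [norm_one])
    obtain ⟨E2, hE2, hE2c, hE2b⟩ := h2
    refine ⟨(E1 ∪ E2) ∪ Icc 1 Y, Finset.union_subset (Finset.union_subset hE1 hE2) hYx, hcard1 _ ?_,
      fun n hn hnE => ?_⟩
    · have h4 : ((E1 ∪ E2).card : ℝ) ≤ E1.card + E2.card := by exact_mod_cast Finset.card_union_le _ _
      linarith
    rw [Finset.mem_union, Finset.mem_union, not_or, not_or] at hnE
    obtain ⟨⟨hnE1, hnE2⟩, hnY⟩ := hnE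
    have hnx := Finset.mem_Icc.mp hn
    have hnbig := hbig n hn hnY
    -- the formula with the truncation at `(log x)^B`
    have hform : ∀ M : ℕ, (x : ℝ) ^ (1 / 12 + ε₁) ≤ M → M ^ 2 + 2 ≤ n →
        |(((range (M + 1)).filter (fun m => (n - m ^ 2).Prime)).card : ℝ) -
          SQ (zA B x) n * ∑ m ∈ range (M + 1), 1 / Real.log ((n - m ^ 2 : ℕ) : ℝ)| ≤ 2 * (M / L ^ (A + 4)) := by
      intro M hM hMn
      have h4 := hE1b n hn hnE1 M hM (by omega)
      have h5 : ∑ m ∈ range (M + 1), (1 : ℂ) * ((G0 (n - m ^ 2) - G1 (zA B x) (n - m ^ 2) : ℝ) : ℂ) =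
          ((∑ m ∈ range (M + 1), (G0 (n - m ^ 2) - G1 (zA B x) (n - m ^ 2)) : ℝ) : ℂ) := by
        rw [Complex.ofReal_sum]
        exact Finset.sum_congr rfl fun m _ => one_mul _
      rw [h5, Complex.norm_real, Real.norm_eq_abs, Finset.sum_sub_distrib, sum_G0] at h4
      have h6 := h3 n M (le_trans (Real.rpow_le_rpow_of_exponent_le hx1r (by linarith)) hM) hMn
      rw [abs_le] at h4 h6 ⊢
      constructor <;> linarith [h4.1, h4.2, h6.1, h6.2]
    refine ⟨?_, fun M z hM hMn hz1 hz2 => ?_⟩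
    · -- existence
      set M := ⌊(n : ℝ) ^ (1 / 12 + 2 * ε₁)⌋₊ with hMdef
      have hn1 : (1 : ℝ) ≤ n := by exact_mod_cast hnx.1
      have hn0 : (0 : ℝ) < n := by linarith
      have hMle : (M : ℝ) ≤ (n : ℝ) ^ (1 / 12 + 2 * ε₁) := Nat.floor_le (by positivity)
      have hMge : (x : ℝ) ^ (1 / 12 + ε₁) ≤ M := by
        have h4 : (n : ℝ) ^ (1 / 12 + 2 * ε₁) < M + 1 := Nat.lt_floor_add_one _
        have h5 := hpow n hnbig
        have h6 : (1 : ℝ) ≤ (x : ℝ) ^ (1 / 12 + ε₁) := Real.one_le_rpow hx1r (by linarith)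
        linarith
      have hMn : M ^ 2 + 2 ≤ n := by
        have h4 : (M : ℝ) ^ 2 ≤ (n : ℝ) ^ (1 / 2 : ℝ) := by
          calc (M : ℝ) ^ 2 ≤ ((n : ℝ) ^ (1 / 12 + 2 * ε₁)) ^ 2 := pow_le_pow_left₀ (Nat.cast_nonneg _) hMle 2
            _ = (n : ℝ) ^ ((1 / 12 + 2 * ε₁) * 2) := by
                rw [← Real.rpow_natCast, ← Real.rpow_mul hn0.le]
                norm_num
            _ ≤ (n : ℝ) ^ (1 / 2 : ℝ) := Real.rpow_le_rpow_of_exponent_le hn1 (by linarith)
        have h5 : (x : ℝ) ^ (1 / 2 : ℝ) ≤ n := by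
          refine le_trans ?_ hnbig.le
          rw [le_div_iff₀ (by positivity)]
          calc (x : ℝ) ^ (1 / 2 : ℝ) * L ^ (A + 2) ≤ (x : ℝ) ^ (1 / 2 : ℝ) * (x : ℝ) ^ (1 / 2 : ℝ) :=
                mul_le_mul_of_nonneg_left e3 (by positivity)
            _ = x := by
                rw [← Real.rpow_add hx0]
                norm_num
        have h6 : (16 : ℝ) ≤ n := e2.trans h5
        have h7 : (n : ℝ) ^ (1 / 2 : ℝ) * (n : ℝ) ^ (1 / 2 : ℝ) = n := by
          rw [← Real.rpow_add hn0]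
          norm_num
        have h8 : (4 : ℝ) ≤ (n : ℝ) ^ (1 / 2 : ℝ) := by
          by_contra hcon
          rw [not_le] at hcon
          have h9 : (0 : ℝ) ≤ (n : ℝ) ^ (1 / 2 : ℝ) := by positivity
          nlinarith
        have h10 : (M : ℝ) ^ 2 + 2 ≤ n := by nlinarith
        exact_mod_cast h10
      have h4 := hform M hMge hMn
      have hM0 : (1 : ℝ) ≤ M := le_trans (Real.one_le_rpow hx1r (by linarith)) hMge
      have h5 : (M : ℝ) / L ≤ ∑ m ∈ range (M + 1), 1 / Real.log ((n - m ^ 2 : ℕ) : ℝ) := by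
        calc (M : ℝ) / L ≤ (M + 1) * (1 / L) := by
              rw [mul_one_div]
              exact div_le_div_of_nonneg_right (by linarith) hL0.le
          _ = ∑ _m ∈ range (M + 1), 1 / L := by
              rw [Finset.sum_const, Finset.card_range, nsmul_eq_mul]
              push_cast
              ring
          _ ≤ _ := by
              refine Finset.sum_le_sum fun m hm => ?_
              have hm' : m ≤ M := Nat.lt_succ_iff.mp (Finset.mem_range.mp hm)
              have h6 : m ^ 2 ≤ M ^ 2 := Nat.pow_le_pow_left hm' 2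
              have h7 : 2 ≤ n - m ^ 2 := by omega
              have h8 : n - m ^ 2 ≤ x := by omega
              have h9 : (0 : ℝ) < Real.log ((n - m ^ 2 : ℕ) : ℝ) := Real.log_pos (by exact_mod_cast h7)
              refine one_div_le_one_div_of_le h9 (Real.log_le_log ?_ (by exact_mod_cast h8))
              have : 0 < n - m ^ 2 := by omega
              exact_mod_cast this
      have h6 : 1 / L ^ 2 ≤ SQ (zA B x) n := by
        refine le_trans ?_ (SQ_ge _ n)
        have h7 : 1 / L ≤ DZ (zA B x) := by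
          rw [div_le_iff₀ hL0]
          have h8 := DZ_pos (zA B x)
          calc (1 : ℝ) = DZ (zA B x) * (DZ (zA B x))⁻¹ := (mul_inv_cancel₀ h8.ne').symm
            _ ≤ DZ (zA B x) * L := mul_le_mul_of_nonneg_left hD h8.le
        calc 1 / L ^ 2 = (1 / L) ^ 2 := by rw [div_pow, one_pow]
          _ ≤ DZ (zA B x) ^ 2 := pow_le_pow_left₀ (by positivity) h7 2
      have h7 : (M : ℝ) / L ^ 3 ≤
          SQ (zA B x) n * ∑ m ∈ range (M + 1), 1 / Real.log ((n - m ^ 2 : ℕ) : ℝ) := by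
        calc (M : ℝ) / L ^ 3 = (1 / L ^ 2) * (M / L) := by
              field_simp
          _ ≤ _ := mul_le_mul h6 h5 (by positivity) (SQ_nonneg _ _)
      have h8 : 2 * ((M : ℝ) / L ^ (A + 4)) < M / L ^ 3 := by
        have h9 : (M : ℝ) / L ^ (A + 4) ≤ M / L ^ 4 :=
          div_le_div_of_nonneg_left (by linarith) (by positivity) (pow_le_pow_right₀ hL1 (by omega))
        have h10 : 2 * ((M : ℝ) / L ^ 4) < M / L ^ 3 := by
          have h11 : 2 * ((M : ℝ) / L ^ 4) = (M / L ^ 3) * (2 / L) := by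
            field_simp
          rw [h11]
          have h12 : 0 < (M : ℝ) / L ^ 3 := by positivity
          have h13 : 2 / L < 1 := by
            rw [div_lt_one hL0]
            linarith
          exact mul_lt_of_lt_one_right h12 h13
        linarith
      have h9 : (0 : ℝ) < (((range (M + 1)).filter (fun m => (n - m ^ 2).Prime)).card : ℝ) := by
        rw [abs_le] at h4
        linarith [h4.1]
      have h10 : 0 < ((range (M + 1)).filter (fun m => (n - m ^ 2).Prime)).card := by exact_mod_cast h9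
      obtain ⟨m, hm⟩ := Finset.card_pos.mp h10
      obtain ⟨hm1, hm2⟩ := Finset.mem_filter.mp hm
      have hm' : m ≤ M := Nat.lt_succ_iff.mp (Finset.mem_range.mp hm1)
      have h11 : m ^ 2 ≤ M ^ 2 := Nat.pow_le_pow_left hm' 2
      refine ⟨m, n - m ^ 2, hm2, by omega, ?_⟩
      calc (m : ℝ) ≤ M := by exact_mod_cast hm'
        _ ≤ (n : ℝ) ^ (1 / 12 + 2 * ε₁) := hMle
        _ ≤ (n : ℝ) ^ (1 / 12 + ε) := Real.rpow_le_rpow_of_exponent_le hn1 (by linarith)
    · -- the formula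
      have hM' := hpow' n M hnbig hM
      have h4 := hform M hM' hMn
      have hM0 : (1 : ℝ) ≤ M := le_trans (Real.one_le_rpow hx1r (by linarith)) hM'
      have h5 := hE2b n hn hnE2 z (by
        unfold zA
        exact Nat.floor_le_of_le hz1) hz2
      have h6 : ∑ m ∈ range (M + 1), 1 / Real.log ((n - m ^ 2 : ℕ) : ℝ) ≤ 4 * M := by
        calc ∑ m ∈ range (M + 1), 1 / Real.log ((n - m ^ 2 : ℕ) : ℝ) ≤ ∑ _m ∈ range (M + 1), (2 : ℝ) :=
              Finset.sum_le_sum fun m _ => inv_log_le _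
          _ = 2 * (M + 1) := by
              rw [Finset.sum_const, Finset.card_range, nsmul_eq_mul]
              push_cast
              ring
          _ ≤ 4 * M := by linarith
      have h7 : 0 ≤ ∑ m ∈ range (M + 1), 1 / Real.log ((n - m ^ 2 : ℕ) : ℝ) :=
        Finset.sum_nonneg fun m _ => inv_log_nonneg _
      set W := ∑ m ∈ range (M + 1), 1 / Real.log ((n - m ^ 2 : ℕ) : ℝ) with hW
      have h8 : |SQ (zA B x) n * W - SQ z n * W| ≤ 1 / L ^ (A + 4) * (4 * M) := by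
        rw [← sub_mul, abs_mul, abs_sub_comm, abs_of_nonneg h7]
        exact mul_le_mul h5 h6 h7 (by positivity)
      rw [singular_eq]
      have h9 : (((range (M + 1)).filter (fun m => (n - m ^ 2).Prime)).card : ℝ) - SQ z n * W =
          ((((range (M + 1)).filter (fun m => (n - m ^ 2).Prime)).card : ℝ) - SQ (zA B x) n * W) +
            (SQ (zA B x) n * W - SQ z n * W) := by ring
      rw [h9]
      refine (abs_add_le _ _).trans ((add_le_add h4 h8).trans ?_)
      have h10 : 2 * ((M : ℝ) / L ^ (A + 4)) + 1 / L ^ (A + 4) * (4 * M) = (M / L ^ A) * (6 / L ^ 4) := by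
        rw [pow_add]
        field_simp
        ring
      rw [h10]
      refine mul_le_of_le_one_right (by positivity) ?_
      rw [div_le_one (by positivity)]
      have : L ≤ L ^ 4 := le_self_pow₀ hL1 (by norm_num)
      linarith
  · obtain ⟨E, hE, hEc, hEb⟩ := h1 c hc
    refine ⟨E ∪ Icc 1 Y, Finset.union_subset hE hYx, hcard1 _ ?_, fun n hn hnE M hM hMn => ?_⟩
    · have : 0 ≤ (x : ℝ) / L ^ (A + 4) := by positivity
      linarith
    rw [Finset.mem_union, not_or] at hnE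
    have hM' := hpow' n M (hbig n hn hnE.2) hM
    have h4 := hEb n hn hnE.1 M hM' (by omega)
    have h5 : ∑ m ∈ (range (M + 1)).filter (fun m => (n - m ^ 2).Prime), c m -
        ∑ m ∈ range (M + 1), c m * (model ⌊L ^ B⌋₊ (n - m ^ 2) : ℂ) =
        ∑ m ∈ range (M + 1), c m * ((G0 (n - m ^ 2) - G1 (zA B x) (n - m ^ 2) : ℝ) : ℂ) := by
      rw [Finset.sum_filter, ← Finset.sum_sub_distrib]
      refine Finset.sum_congr rfl fun m _ => ?_
      rw [model_eq]
      unfold G0 zA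
      split_ifs
      · push_cast
        ring
      · push_cast
        ring
    rw [h5]
    refine h4.trans ?_
    exact div_le_div_of_nonneg_left (Nat.cast_nonneg _) (by positivity) (pow_le_pow_right₀ hL1 (by omega))

end Pool.Agent.Results.MP_83819a_nt.SmallSquares
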